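import Pool.Agent.helper53.DC.SpecI

/-! Module I5: products along a chain. -/

set_option autoImplicit false

namespace Pool.Agent.helper33.DC

open Pool.Agent.helper53.DC

theorem kap_split {Z : Type} [Fintype Z] (n : ℕ → LL Z) (a b : ℕ) (v : LL Z) :
    kap n (a + b) v = kap n a (kap (fun t => n (a + t)) b v) := by
  induction b generalizing v with
  | zero => rfl
  | succ b ih =>
    show kap n (a + b) (rf (n (a + b)) v) = _
    rw [ih]
    rfl

theorem kap_head {Z : Type} [Fintype Z] (n : ℕ → LL Z) (b : ℕ) (v : LL Z) :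
    kap n (b + 1) v = rf (n 0) (kap (fun t => n (1 + t)) b v) := by
  rw [add_comm, kap_split]
  rfl

theorem I5 : I5_stmt := by
  intro Z _ n N hn k u μ hμ hu huN hle hμ'
  -- monotonicity
  have hmono : ∀ q, q ≤ k + 1 → ∀ p, p ≤ q → u p ≤ u q := by
    intro q
    induction q with
    | zero =>
      intro _ p hp
      rw [Nat.le_zero.1 hp]
    | succ q ih =>
      intro hq p hp
      rcases Nat.lt_or_ge p (q + 1) with h | h
      · have h1 := ih (by omega) p (by omega)
        have h2 := hu q (by omega)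
        omega
      · rw [show p = q + 1 by omega]
  set j := u (k + 1) with hj
  set W : ℕ → LL Z := fun l => kap (fun t => n (l + t)) (j - l) (n j) with hWdef
  have hWj : W j = n j := by
    rw [hWdef]
    simp only [Nat.sub_self]
    rfl
  have hW : ∀ l < j, W l = rf (n l) (W (l + 1)) := by
    intro l hl
    rw [hWdef]
    simp only
    obtain ⟨m, hm⟩ : ∃ m, j - l = m + 1 := ⟨j - l - 1, by omega⟩
    have hm' : j - (l + 1) = m := by omega
    rw [hm, hm', kap_head]
    simp only [add_zero, add_assoc]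
  -- step
  have hstep : ∀ l < j, ∀ x : LL Z, lf x (W l) =
      lf x (W (l + 1)) - 2 * lf (n l) (W (l + 1)) * lf x (n l) := by
    intro l hl x
    rw [hW l hl]
    unfold rf
    rw [lf_sub_right, lf_smul_right]
  -- sign
  have hD : ∀ m l, l + m = j → u 0 ≤ l → ∀ x : LL Z, (∀ t, l ≤ t → t ≤ j → lf x (n t) ≤ 0) →
      lf x (W l) ≤ 0 := by
    intro m
    induction m with
    | zero =>
      intro l hl _ x hx
      rw [show l = j by omega, hWj]
      exact hx j (by omega) le_rfl
    | succ m ih =>
      intro l hl hl0 x hx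
      rw [hstep l (by omega) x]
      have h1 := ih (l + 1) (by omega) (by omega) x fun t ht ht' => hx t (by omega) ht'
      have h2 := ih (l + 1) (by omega) (by omega) (n l)
        fun t ht ht' => hle l t hl0 (by omega) ht'
      have h3 := hx l le_rfl (by omega)
      nlinarith [mul_nonneg_of_nonpos_of_nonpos h2 h3]
  have hsign : ∀ l, u 0 ≤ l → l < j → lf (n l) (W (l + 1)) ≤ 0 := by
    intro l hl0 hl
    exact hD (j - (l + 1)) (l + 1) (by omega) (by omega) (n l)
      fun t ht ht' => hle l t hl0 (by omega) ht'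
  have hC : ∀ m l, l + m ≤ j → u 0 ≤ l → ∀ x : LL Z, (∀ t, l ≤ t → t < l + m → lf x (n t) ≤ 0) →
      lf x (W l) ≤ lf x (W (l + m)) := by
    intro m
    induction m with
    | zero => intro l _ _ x _; exact le_rfl
    | succ m ih =>
      intro l hl hl0 x hx
      rw [hstep l (by omega) x]
      have h1 := ih (l + 1) (by omega) (by omega) x fun t ht ht' => hx t (by omega) (by omega)
      rw [show l + 1 + m = l + (m + 1) by omega] at h1
      have h2 := hsign l hl0 (by omega)
      have h3 := hx l le_rfl (by omega)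
      nlinarith [mul_nonneg_of_nonpos_of_nonpos h2 h3]
  have hB : ∀ m p, p + m = k + 1 → ∀ (x : LL Z) (ν : ℝ), 0 ≤ ν →
      (∀ t, u p ≤ t → t ≤ j → lf x (n t) ≤ 0) →
      (∀ q, p ≤ q → q ≤ k + 1 → lf x (n (u q)) ≤ -ν) →
      lf x (W (u p)) ≤ -(ν * (1 + 2 * μ) ^ m) := by
    intro m
    induction m with
    | zero =>
      intro p hp x ν _ _ hx
      rw [show p = k + 1 by omega, ← hj, hWj, pow_zero, mul_one]
      exact hx (k + 1) (by omega) le_rfl
    | succ m ih =>
      intro p hp x ν hν hx hx'
      have hup : u p < u (p + 1) := hu p (by omega)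
      have hup1 : u (p + 1) ≤ j := hmono (k + 1) le_rfl (p + 1) (by omega)
      have hup0 : u 0 ≤ u p := hmono p (by omega) 0 (by omega)
      rw [hstep (u p) (by omega) x]
      obtain ⟨e, he⟩ : ∃ e, u p + 1 + e = u (p + 1) := ⟨u (p + 1) - (u p + 1), by omega⟩
      have h1 : lf x (W (u p + 1)) ≤ -(ν * (1 + 2 * μ) ^ m) := by
        refine (hC e (u p + 1) (by omega) (by omega) x fun t ht ht' => hx t (by omega)
          (by omega)).trans ?_
        rw [he]
        exact ih (p + 1) (by omega) x ν hν (fun t ht ht' => hx t (by omega) ht')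
          (fun q hq hq' => hx' q (by omega) hq')
      have h2 : lf (n (u p)) (W (u p + 1)) ≤ -(μ * (1 + 2 * μ) ^ m) := by
        refine (hC e (u p + 1) (by omega) (by omega) (n (u p)) fun t ht ht' =>
          hle (u p) t hup0 (by omega) (by omega)).trans ?_
        rw [he]
        exact ih (p + 1) (by omega) (n (u p)) μ hμ
          (fun t ht ht' => hle (u p) t hup0 (by omega) ht')
          (fun q hq hq' => hμ' p q (by omega) hq')
      have h3 : lf x (n (u p)) ≤ -ν := hx' p le_rfl (by omega)
      have h4 : 0 ≤ (1 + 2 * μ) ^ m := by positivity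
      have h5 : μ * (1 + 2 * μ) ^ m * ν ≤ lf (n (u p)) (W (u p + 1)) * lf x (n (u p)) := by
        have h6 : 0 ≤ μ * (1 + 2 * μ) ^ m := by positivity
        have := mul_le_mul (neg_le_neg h2) (neg_le_neg h3) (by linarith) (by linarith)
        nlinarith
      rw [pow_succ]
      nlinarith
  -- conclusion
  have hij : u 0 < j := lt_of_lt_of_le (hu 0 (by omega)) (hmono (k + 1) le_rfl 1 (by omega))
  have e1 : kap n j (n j) = kap n (u 0) (W (u 0)) := by
    have h := kap_split n (u 0) (j - u 0) (n j)
    rw [show u 0 + (j - u 0) = j by omega] at h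
    exact h
  rw [e1, lf_kap (fun i hi => hn i (by omega)), hW (u 0) hij, lf_rf_left (hn (u 0) (by omega))]
  have h01 : u 0 < u 1 := hu 0 (by omega)
  obtain ⟨e, he⟩ : ∃ e, u 0 + 1 + e = u 1 := ⟨u 1 - (u 0 + 1), by omega⟩
  have hu1 : u 1 ≤ j := hmono (k + 1) le_rfl 1 (by omega)
  have h1 : lf (n (u 0)) (W (u 0 + 1)) ≤ -(μ * (1 + 2 * μ) ^ k) := by
    refine (hC e (u 0 + 1) (by omega) (by omega) (n (u 0)) fun t ht ht' =>
      hle (u 0) t le_rfl (by omega) (by omega)).trans ?_
    rw [he]
    exact hB k 1 (by omega) (n (u 0)) μ hμ (fun t ht ht' => hle (u 0) t le_rfl (by omega) ht')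
      (fun q hq hq' => hμ' 0 q (by omega) hq')
  linarith

end Pool.Agent.helper33.DC
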